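import Mathlib

set_option autoImplicit false

/-!
# Triangles of unit perimeter: the lower bound `n ^ (4 / 3)`

For `u` real and `x > 0` let `Z u x` be the point `(1 + i u) ^ 2 / (2 (1 + u ^ 2 + x ^ 2))` of the
plane. If `v - u = x y` then the triangle with the vertices `0`, `Z u x`, `Z v y` has perimeter `1`:
its sides are `(1 + u ^ 2) / (2 D)`, `(1 + v ^ 2) / (2 D')` and `x ^ 2 / (2 D) + y ^ 2 / (2 D')`,
where `D = 1 + u ^ 2 + x ^ 2` and `D' = 1 + v ^ 2 + y ^ 2`. (In general the triangles of perimeter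
`1` correspond to orthonormal frames of three-dimensional space.) The relation `v - u = x y` is an
incidence relation of points and lines. The set of the points `Z u x` with integers
`1 ≤ u ≤ 2 m ^ 2`, `1 ≤ x ≤ m`, together with the origin, has `2 m ^ 3 + 1` points and spans at
least `m ^ 4` triangles of perimeter `1`.
-/

namespace Pool.Agent.Results.MP_75315a_co.UnitPerimeter

open Filter

/-- The Euclidean plane. -/
abbrev E2 : Type := EuclideanSpace ℝ (Fin 2)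

/-- `T` is the vertex set of a non-degenerate triangle of perimeter `1`. -/
def IsUnitPerimeter (T : Finset E2) : Prop :=
  ∃ a b c : E2, T = {a, b, c} ∧ AffineIndependent ℝ ![a, b, c] ∧
    dist a b + dist b c + dist c a = 1

/-- The number of triangles of perimeter `1` spanned by `P`. -/
noncomputable def count (P : Finset E2) : ℕ :=
  Set.ncard {T : Finset E2 | T ⊆ P ∧ IsUnitPerimeter T}

/-- `u n`: the maximum of `count P` over all sets `P` of `n` points of the plane. -/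
noncomputable def u (n : ℕ) : ℕ :=
  sSup {k | ∃ P : Finset E2, P.card = n ∧ k = count P}

/-- The points of the construction. -/
noncomputable def Z (s x : ℝ) : E2 :=
  !₂[(1 - s ^ 2) / (2 * (1 + s ^ 2 + x ^ 2)), (2 * s) / (2 * (1 + s ^ 2 + x ^ 2))]

lemma norm_Z (s x : ℝ) : ‖Z s x‖ = (1 + s ^ 2) / (2 * (1 + s ^ 2 + x ^ 2)) := by
  have hD : (0 : ℝ) < 1 + s ^ 2 + x ^ 2 := by positivity
  rw [EuclideanSpace.norm_eq, Fin.sum_univ_two]
  rw [Real.sqrt_eq_iff_mul_self_eq (by positivity) (by positivity)]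
  simp only [Z, Real.norm_eq_abs, sq_abs]
  simp
  field_simp
  ring

lemma dist_Z (s x y : ℝ) :
    dist (Z s x) (Z (s + x * y) y) =
      x ^ 2 / (2 * (1 + s ^ 2 + x ^ 2)) + y ^ 2 / (2 * (1 + (s + x * y) ^ 2 + y ^ 2)) := by
  have hD : (0 : ℝ) < 1 + s ^ 2 + x ^ 2 := by positivity
  have hD' : (0 : ℝ) < 1 + (s + x * y) ^ 2 + y ^ 2 := by positivity
  rw [EuclideanSpace.dist_eq, Fin.sum_univ_two]
  rw [Real.sqrt_eq_iff_mul_self_eq (by positivity) (by positivity)]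
  simp only [Z, Real.dist_eq, sq_abs]
  simp
  field_simp
  ring

/-- The perimeter is one. -/
lemma perimeter (s x y : ℝ) :
    dist (0 : E2) (Z s x) + dist (Z s x) (Z (s + x * y) y) + dist (Z (s + x * y) y) (0 : E2) = 1 := by
  have hD : (0 : ℝ) < 1 + s ^ 2 + x ^ 2 := by positivity
  have hD' : (0 : ℝ) < 1 + (s + x * y) ^ 2 + y ^ 2 := by positivity
  rw [dist_zero_left, dist_zero_right, norm_Z, norm_Z, dist_Z]
  field_simp
  ring

lemma Z_inj {s x t y : ℝ} (hx : 0 < x) (hy : 0 < y) (h : Z s x = Z t y) : s = t ∧ x = y := by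
  have hD : (0 : ℝ) < 1 + s ^ 2 + x ^ 2 := by positivity
  have hD' : (0 : ℝ) < 1 + t ^ 2 + y ^ 2 := by positivity
  have h0 : (1 - s ^ 2) / (2 * (1 + s ^ 2 + x ^ 2)) = (1 - t ^ 2) / (2 * (1 + t ^ 2 + y ^ 2)) := by
    have := congrArg (fun v : E2 => v 0) h
    simpa [Z] using this
  have h1 : (2 * s) / (2 * (1 + s ^ 2 + x ^ 2)) = (2 * t) / (2 * (1 + t ^ 2 + y ^ 2)) := by
    have := congrArg (fun v : E2 => v 1) h
    simpa [Z] using this
  have h2 : (1 + s ^ 2) / (2 * (1 + s ^ 2 + x ^ 2)) = (1 + t ^ 2) / (2 * (1 + t ^ 2 + y ^ 2)) := by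
    rw [← norm_Z, ← norm_Z, h]
  have h3 : 1 / (1 + s ^ 2 + x ^ 2) = 1 / (1 + t ^ 2 + y ^ 2) := by
    have e1 : 1 / (1 + s ^ 2 + x ^ 2) = (1 - s ^ 2) / (2 * (1 + s ^ 2 + x ^ 2)) +
        (1 + s ^ 2) / (2 * (1 + s ^ 2 + x ^ 2)) := by
      field_simp
      ring
    have e2 : 1 / (1 + t ^ 2 + y ^ 2) = (1 - t ^ 2) / (2 * (1 + t ^ 2 + y ^ 2)) +
        (1 + t ^ 2) / (2 * (1 + t ^ 2 + y ^ 2)) := by
      field_simp
      ring
    rw [e1, e2, h0, h2]
  have h4 : 1 + s ^ 2 + x ^ 2 = 1 + t ^ 2 + y ^ 2 := by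
    rw [one_div, one_div] at h3
    exact inv_injective h3
  have hst : s = t := by
    rw [h4] at h1
    field_simp at h1
    linarith
  refine ⟨hst, ?_⟩
  have h5 : x ^ 2 = y ^ 2 := by rw [hst] at h4; linarith
  nlinarith

/-- The triangle is not degenerate. -/
lemma indep_Z {s x y : ℝ} (hs : 0 < s) (hx : 0 < x) (hy : 0 < y) :
    AffineIndependent ℝ ![(0 : E2), Z s x, Z (s + x * y) y] := by
  have hD : (0 : ℝ) < 1 + s ^ 2 + x ^ 2 := by positivity
  have hD' : (0 : ℝ) < 1 + (s + x * y) ^ 2 + y ^ 2 := by positivity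
  rw [affineIndependent_iff_of_fintype]
  intro w hw h
  rw [Finset.univ.weightedVSub_eq_linear_combination hw] at h
  rw [Fin.sum_univ_three] at hw
  set p : ℝ := w 1 / (2 * (1 + s ^ 2 + x ^ 2)) with hp
  set q : ℝ := w 2 / (2 * (1 + (s + x * y) ^ 2 + y ^ 2)) with hq
  have h0 : p * (1 - s ^ 2) + q * (1 - (s + x * y) ^ 2) = 0 := by
    have h' := congrArg (fun v : E2 => v 0) h
    simp [Fin.sum_univ_three, Z] at h'
    rw [← h', hp, hq]
    ring
  have h1 : p * (2 * s) + q * (2 * (s + x * y)) = 0 := by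
    have h' := congrArg (fun v : E2 => v 1) h
    simp [Fin.sum_univ_three, Z] at h'
    rw [← h', hp, hq]
    ring
  have hxy : 0 < x * y := mul_pos hx hy
  have hq0 : q = 0 := by
    have e : q * (x * y * (1 + s * (s + x * y))) = 0 := by
      linear_combination (-s) * h0 + (1 - s ^ 2) / 2 * h1
    rcases mul_eq_zero.1 e with h | h
    · exact h
    · exfalso
      have : 0 < x * y * (1 + s * (s + x * y)) := by positivity
      linarith
  have hp0 : p = 0 := by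
    rw [hq0] at h1
    have : p * (2 * s) = 0 := by linarith
    rcases mul_eq_zero.1 this with h | h
    · exact h
    · exfalso; linarith
  have hw1 : w 1 = 0 := by
    rw [hp, div_eq_zero_iff] at hp0
    rcases hp0 with h | h
    · exact h
    · exfalso; linarith
  have hw2 : w 2 = 0 := by
    rw [hq, div_eq_zero_iff] at hq0
    rcases hq0 with h | h
    · exact h
    · exfalso; linarith
  have hw0 : w 0 = 0 := by rw [hw1, hw2] at hw; linarith
  intro i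
  fin_cases i
  · exact hw0
  · exact hw1
  · exact hw2

/-- The parameters `(s, x)` of the points. -/
def grid (m : ℕ) : Finset (ℕ × ℕ) := Finset.Icc 1 (2 * m ^ 2) ×ˢ Finset.Icc 1 m

/-- The parameters `(s, x, y)` of the triangles. -/
def params (m : ℕ) : Finset (ℕ × ℕ × ℕ) :=
  Finset.Icc 1 (m ^ 2) ×ˢ (Finset.Icc 1 m ×ˢ Finset.Icc 1 m)

/-- The set of points. -/
noncomputable def pts (m : ℕ) : Finset E2 :=
  insert 0 ((grid m).image fun g => Z (g.1 : ℝ) (g.2 : ℝ))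

/-- The triangles. -/
noncomputable def tri (p : ℕ × ℕ × ℕ) : Finset E2 :=
  {0, Z (p.1 : ℝ) (p.2.1 : ℝ), Z ((p.1 : ℝ) + (p.2.1 : ℝ) * (p.2.2 : ℝ)) (p.2.2 : ℝ)}

lemma card_pts (m : ℕ) : (pts m).card ≤ 2 * m ^ 3 + 1 := by
  refine le_trans (Finset.card_insert_le _ _) ?_
  refine Nat.add_le_add_right ?_ 1
  refine le_trans Finset.card_image_le ?_
  rw [grid, Finset.card_product, Nat.card_Icc, Nat.card_Icc]
  apply le_of_eq
  simp only [Nat.add_sub_cancel]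
  ring

lemma card_params (m : ℕ) : (params m).card = m ^ 4 := by
  rw [params, Finset.card_product, Finset.card_product, Nat.card_Icc, Nat.card_Icc]
  simp only [Nat.add_sub_cancel]
  ring

lemma mem_params {m : ℕ} {p : ℕ × ℕ × ℕ} (hp : p ∈ params m) :
    (1 ≤ p.1 ∧ p.1 ≤ m ^ 2) ∧ (1 ≤ p.2.1 ∧ p.2.1 ≤ m) ∧ (1 ≤ p.2.2 ∧ p.2.2 ≤ m) := by
  rw [params, Finset.mem_product, Finset.mem_product, Finset.mem_Icc, Finset.mem_Icc,
    Finset.mem_Icc] at hp
  exact ⟨hp.1, hp.2.1, hp.2.2⟩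

lemma tri_subset {m : ℕ} {p : ℕ × ℕ × ℕ} (hp : p ∈ params m) : tri p ⊆ pts m := by
  obtain ⟨⟨h1, h2⟩, ⟨h3, h4⟩, ⟨h5, h6⟩⟩ := mem_params hp
  intro z hz
  rw [tri, Finset.mem_insert, Finset.mem_insert, Finset.mem_singleton] at hz
  rw [pts, Finset.mem_insert]
  have hm : p.2.1 * p.2.2 ≤ m ^ 2 := by
    calc p.2.1 * p.2.2 ≤ m * m := Nat.mul_le_mul h4 h6
      _ = m ^ 2 := by ring
  rcases hz with rfl | rfl | rfl
  · exact Or.inl rfl
  · right
    rw [Finset.mem_image]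
    refine ⟨(p.1, p.2.1), ?_, rfl⟩
    rw [grid, Finset.mem_product, Finset.mem_Icc, Finset.mem_Icc]
    exact ⟨⟨h1, by omega⟩, ⟨h3, h4⟩⟩
  · right
    rw [Finset.mem_image]
    refine ⟨(p.1 + p.2.1 * p.2.2, p.2.2), ?_, ?_⟩
    · rw [grid, Finset.mem_product, Finset.mem_Icc, Finset.mem_Icc]
      exact ⟨⟨by omega, by omega⟩, ⟨h5, h6⟩⟩
    · push_cast
      rfl

lemma tri_unit {m : ℕ} {p : ℕ × ℕ × ℕ} (hp : p ∈ params m) : IsUnitPerimeter (tri p) := by
  obtain ⟨⟨h1, h2⟩, ⟨h3, h4⟩, ⟨h5, h6⟩⟩ := mem_params hp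
  refine ⟨_, _, _, rfl, indep_Z ?_ ?_ ?_, perimeter _ _ _⟩
  · exact_mod_cast h1
  · exact_mod_cast h3
  · exact_mod_cast h5

lemma Z_ne_zero (s x : ℝ) : Z s x ≠ 0 := by
  intro h
  have h1 := norm_Z s x
  rw [h, norm_zero] at h1
  have : (0 : ℝ) < (1 + s ^ 2) / (2 * (1 + s ^ 2 + x ^ 2)) := by positivity
  linarith

lemma tri_inj {m : ℕ} : Set.InjOn tri (params m : Set (ℕ × ℕ × ℕ)) := by
  intro p hp r hr h
  rw [Finset.mem_coe] at hp hr
  obtain ⟨⟨h1, h2⟩, ⟨h3, h4⟩, ⟨h5, h6⟩⟩ := mem_params hp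
  obtain ⟨⟨g1, g2⟩, ⟨g3, g4⟩, ⟨g5, g6⟩⟩ := mem_params hr
  have hx : (0 : ℝ) < p.2.1 := by exact_mod_cast h3
  have hy : (0 : ℝ) < p.2.2 := by exact_mod_cast h5
  have gx : (0 : ℝ) < r.2.1 := by exact_mod_cast g3
  have gy : (0 : ℝ) < r.2.2 := by exact_mod_cast g5
  have hxy : (0 : ℝ) < (p.2.1 : ℝ) * p.2.2 := mul_pos hx hy
  have gxy : (0 : ℝ) < (r.2.1 : ℝ) * r.2.2 := mul_pos gx gy
  have m1 : Z (p.1 : ℝ) (p.2.1 : ℝ) ∈ tri r := by
    rw [← h, tri]; simp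
  have m2 : Z ((p.1 : ℝ) + (p.2.1 : ℝ) * (p.2.2 : ℝ)) (p.2.2 : ℝ) ∈ tri r := by
    rw [← h, tri]; simp
  have m3 : Z (r.1 : ℝ) (r.2.1 : ℝ) ∈ tri p := by
    rw [h, tri]; simp
  rw [tri, Finset.mem_insert, Finset.mem_insert, Finset.mem_singleton] at m1 m2 m3
  have k1 : p.1 = r.1 ∧ p.2.1 = r.2.1 := by
    rcases m1 with m1 | m1 | m1
    · exact absurd m1 (Z_ne_zero _ _)
    · obtain ⟨e1, e2⟩ := Z_inj hx gx m1
      exact ⟨by exact_mod_cast e1, by exact_mod_cast e2⟩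
    · exfalso
      obtain ⟨e1, e2⟩ := Z_inj hx gy m1
      rcases m3 with m3 | m3 | m3
      · exact absurd m3 (Z_ne_zero _ _)
      · obtain ⟨e3, e4⟩ := Z_inj gx hx m3
        linarith
      · obtain ⟨e3, e4⟩ := Z_inj gx hy m3
        linarith
  have k2 : p.2.2 = r.2.2 := by
    rcases m2 with m2 | m2 | m2
    · exact absurd m2 (Z_ne_zero _ _)
    · exfalso
      obtain ⟨e1, e2⟩ := Z_inj hy gx m2
      rw [k1.1] at e1
      linarith
    · obtain ⟨e1, e2⟩ := Z_inj hy gy m2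
      exact_mod_cast e2
  exact Prod.ext k1.1 (Prod.ext k1.2 k2)

lemma finite_count (P : Finset E2) : {T : Finset E2 | T ⊆ P ∧ IsUnitPerimeter T}.Finite := by
  apply Set.Finite.subset (Finset.finite_toSet P.powerset)
  intro A hA
  rw [Finset.mem_coe, Finset.mem_powerset]
  exact hA.1

lemma count_le (P : Finset E2) : count P ≤ 2 ^ P.card := by
  have h1 : count P ≤ Set.ncard (P.powerset : Set (Finset E2)) := by
    apply Set.ncard_le_ncard _ (Finset.finite_toSet _)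
    intro A hA
    rw [Finset.mem_coe, Finset.mem_powerset]
    exact hA.1
  rwa [Set.ncard_coe_finset, Finset.card_powerset] at h1

lemma count_le_u (P : Finset E2) : count P ≤ u P.card := by
  apply le_csSup
  · refine ⟨2 ^ P.card, ?_⟩
    rintro k ⟨Q, hQ, rfl⟩
    rw [← hQ]
    exact count_le Q
  · exact ⟨P, rfl, rfl⟩

lemma le_u (m n : ℕ) (h : 2 * m ^ 3 + 1 ≤ n) : m ^ 4 ≤ u n := by
  obtain ⟨P, hP1, hP2⟩ := Infinite.exists_superset_card_eq (pts m) n ((card_pts m).trans h)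
  rw [← hP2]
  refine le_trans ?_ (count_le_u P)
  rw [← card_params, ← Finset.card_image_of_injOn (tri_inj (m := m)), ← Set.ncard_coe_finset]
  apply Set.ncard_le_ncard _ (finite_count P)
  intro T hT
  rw [Finset.mem_coe, Finset.mem_image] at hT
  obtain ⟨p, hp, rfl⟩ := hT
  exact ⟨(tri_subset hp).trans hP1, tri_unit hp⟩

/-- The maximum number `u n` of unit-perimeter triangles spanned by `n` points of the plane is at
least `c n ^ (4 / 3)` for all large `n`, for some `c > 0`. -/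
theorem result :
    ∃ c : ℝ, 0 < c ∧ ∀ᶠ n : ℕ in atTop, c * (n : ℝ) ^ ((4 : ℝ) / 3) ≤ (u n : ℝ) := by
  refine ⟨((24 : ℝ) ^ ((4 : ℝ) / 3))⁻¹, by positivity, ?_⟩
  filter_upwards [eventually_ge_atTop 3] with n hn
  have hex : ∃ m : ℕ, n < 2 * (m + 1) ^ 3 + 1 := by
    refine ⟨n, ?_⟩
    calc n < n + 1 := Nat.lt_succ_self n
      _ ≤ (n + 1) ^ 3 := Nat.le_self_pow (by norm_num) _
      _ ≤ 2 * (n + 1) ^ 3 + 1 := by omega
  obtain ⟨m, hm1, hm2⟩ : ∃ m : ℕ, 2 * m ^ 3 + 1 ≤ n ∧ n < 2 * (m + 1) ^ 3 + 1 := by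
    refine ⟨Nat.find hex, ?_, Nat.find_spec hex⟩
    rcases Nat.eq_zero_or_pos (Nat.find hex) with h0 | h0
    · rw [h0]
      omega
    · have h1 := Nat.find_min hex (Nat.sub_lt h0 Nat.one_pos)
      rw [Nat.sub_add_cancel h0, not_lt] at h1
      exact h1
  have hm0 : 1 ≤ m := by
    by_contra h
    have h0 : m = 0 := by omega
    rw [h0] at hm2
    omega
  have h4 := le_u m n hm1
  have h4r : (m : ℝ) ^ 4 ≤ (u n : ℝ) := by exact_mod_cast h4
  have hnm : (n : ℝ) ≤ 24 * (m : ℝ) ^ 3 := by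
    have h1 : n ≤ 2 * (2 * m) ^ 3 := by
      have : (m + 1) ^ 3 ≤ (2 * m) ^ 3 := Nat.pow_le_pow_left (by omega) 3
      omega
    have h2 : n ≤ 24 * m ^ 3 := by
      have : 2 * (2 * m) ^ 3 = 16 * m ^ 3 := by ring
      omega
    exact_mod_cast h2
  have hpow : (n : ℝ) ^ ((4 : ℝ) / 3) ≤ (24 : ℝ) ^ ((4 : ℝ) / 3) * (m : ℝ) ^ 4 := by
    calc (n : ℝ) ^ ((4 : ℝ) / 3) ≤ (24 * (m : ℝ) ^ 3) ^ ((4 : ℝ) / 3) :=
          Real.rpow_le_rpow (Nat.cast_nonneg n) hnm (by norm_num)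
      _ = (24 : ℝ) ^ ((4 : ℝ) / 3) * ((m : ℝ) ^ 3) ^ ((4 : ℝ) / 3) :=
          Real.mul_rpow (by norm_num) (by positivity)
      _ = (24 : ℝ) ^ ((4 : ℝ) / 3) * (m : ℝ) ^ 4 := by
          congr 1
          rw [← Real.rpow_natCast (m : ℝ) 3, ← Real.rpow_mul (Nat.cast_nonneg m),
            ← Real.rpow_natCast (m : ℝ) 4]
          norm_num
  have hD : (0 : ℝ) < (24 : ℝ) ^ ((4 : ℝ) / 3) := by positivity
  calc ((24 : ℝ) ^ ((4 : ℝ) / 3))⁻¹ * (n : ℝ) ^ ((4 : ℝ) / 3)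
      ≤ ((24 : ℝ) ^ ((4 : ℝ) / 3))⁻¹ * ((24 : ℝ) ^ ((4 : ℝ) / 3) * (m : ℝ) ^ 4) := by gcongr
    _ = (m : ℝ) ^ 4 := by field_simp
    _ ≤ (u n : ℝ) := h4r

end Pool.Agent.Results.MP_75315a_co.UnitPerimeter
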